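import Mathlib

open Filter Topology Manifold ContDiff

namespace Pool.Agent.MP_646617_gt

set_option linter.unusedSectionVars false
set_option linter.unusedSimpArgs false

variable {F : Type*} [NormedAddCommGroup F] [NormedSpace ℝ F]
  {G : Type*} [TopologicalSpace G] [ChartedSpace F G] [Group G] [LieGroup 𝓘(ℝ, F) 1 G]

variable (F G) in
/-- The preferred chart of `G` at `1`. -/
noncomputable abbrev ch : OpenPartialHomeomorph G F := chartAt F (1 : G)

theorem one_mem_source : (1 : G) ∈ (ch F G).source := mem_chart_source F (1 : G)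

variable (F G) in
theorem symm_contMDiffAt : ContMDiffAt 𝓘(ℝ, F) 𝓘(ℝ, F) 1 (ch F G).symm (ch F G 1) :=
  (contMDiffOn_chart_symm (I := 𝓘(ℝ, F)) (x := (1 : G))).contMDiffAt
    ((ch F G).open_target.mem_nhds ((ch F G).map_source one_mem_source))

theorem symm_ch_one : (ch F G).symm (ch F G 1) = 1 := (ch F G).left_inv one_mem_source

/-- A map `α : Z → G` with `α z₀ = 1` whose expression in the chart is strictly differentiable. -/
structure HasD {Z : Type*} [NormedAddCommGroup Z] [NormedSpace ℝ Z] (α : Z → G) (a' : Z →L[ℝ] F)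
    (z₀ : Z) : Prop where
  one : α z₀ = 1
  cont : ContinuousAt α z₀
  deriv : HasStrictFDerivAt (fun z => ch F G (α z)) a' z₀

theorem contDiffAt_of_contMDiffAt {Z : Type*} [NormedAddCommGroup Z] [NormedSpace ℝ Z] {α : Z → G}
    {z₀ : Z} (h1 : α z₀ = 1) (h : ContMDiffAt 𝓘(ℝ, Z) 𝓘(ℝ, F) 1 α z₀) :
    ContDiffAt ℝ 1 (fun z => ch F G (α z)) z₀ := by
  rw [← contMDiffAt_iff_contDiffAt]
  have h2 : ContMDiffAt 𝓘(ℝ, F) 𝓘(ℝ, F) 1 (ch F G) (α z₀) := by
    rw [h1]
    exact (contMDiffOn_chart (I := 𝓘(ℝ, F)) (x := (1 : G))).contMDiffAt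
      ((ch F G).open_source.mem_nhds one_mem_source)
  exact h2.comp z₀ h

theorem hasD_of_contMDiffAt {Z : Type*} [NormedAddCommGroup Z] [NormedSpace ℝ Z] {α : Z → G}
    {z₀ : Z} (h1 : α z₀ = 1) (h : ContMDiffAt 𝓘(ℝ, Z) 𝓘(ℝ, F) 1 α z₀) :
    HasD α (fderiv ℝ (fun z => ch F G (α z)) z₀) z₀ :=
  ⟨h1, h.continuousAt, (contDiffAt_of_contMDiffAt h1 h).hasStrictFDerivAt one_ne_zero⟩

theorem HasD.eventually_mem {Z : Type*} [NormedAddCommGroup Z] [NormedSpace ℝ Z] {α : Z → G}
    {a' : Z →L[ℝ] F} {z₀ : Z} (h : HasD α a' z₀) : ∀ᶠ z in 𝓝 z₀, α z ∈ (ch F G).source := by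
  apply h.cont
  rw [h.one]
  exact (ch F G).open_source.mem_nhds one_mem_source

theorem HasD.eventually_eq {Z : Type*} [NormedAddCommGroup Z] [NormedSpace ℝ Z] {α : Z → G}
    {a' : Z →L[ℝ] F} {z₀ : Z} (h : HasD α a' z₀) :
    ∀ᶠ z in 𝓝 z₀, (ch F G).symm (ch F G (α z)) = α z := by
  filter_upwards [h.eventually_mem] with z hz using (ch F G).left_inv hz

/-- Substitution rule. -/
theorem HasD.comp {Z W : Type*} [NormedAddCommGroup Z] [NormedSpace ℝ Z] [NormedAddCommGroup W]
    [NormedSpace ℝ W] {α : Z → G} {a' : Z →L[ℝ] F} {g : W → Z} {g' : W →L[ℝ] Z} {w₀ : W}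
    (h : HasD α a' (g w₀)) (hg : HasStrictFDerivAt g g' w₀) : HasD (fun w => α (g w)) (a'.comp g') w₀ :=
  ⟨h.one, h.cont.comp (f := g) hg.continuousAt,
    HasStrictFDerivAt.comp w₀ (g := fun z => ch F G (α z)) (f := g) h.deriv hg⟩

variable (F G) in
theorem hasD_symm : HasD (ch F G).symm (ContinuousLinearMap.id ℝ F) (ch F G 1) := by
  refine ⟨symm_ch_one, (symm_contMDiffAt F G).continuousAt, ?_⟩
  refine (hasStrictFDerivAt_id (𝕜 := ℝ) (ch F G 1)).congr_of_eventuallyEq ?_
  filter_upwards [(ch F G).open_target.mem_nhds ((ch F G).map_source one_mem_source)] with x hx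
  exact ((ch F G).right_inv hx).symm

theorem hasD_const {Z : Type*} [NormedAddCommGroup Z] [NormedSpace ℝ Z] (z₀ : Z) :
    HasD (fun _ : Z => (1 : G)) (0 : Z →L[ℝ] F) z₀ :=
  ⟨rfl, continuousAt_const, hasStrictFDerivAt_const _ _⟩

theorem HasD.unique {Z : Type*} [NormedAddCommGroup Z] [NormedSpace ℝ Z] {α : Z → G}
    {a' b' : Z →L[ℝ] F} {z₀ : Z} (ha : HasD α a' z₀) (hb : HasD α b' z₀) : a' = b' :=
  ha.deriv.hasFDerivAt.unique hb.deriv.hasFDerivAt

theorem HasD.congr {Z : Type*} [NormedAddCommGroup Z] [NormedSpace ℝ Z] {α β : Z → G}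
    {a' : Z →L[ℝ] F} {z₀ : Z} (ha : HasD α a' z₀) (h : α =ᶠ[𝓝 z₀] β) : HasD β a' z₀ := by
  refine ⟨h.eq_of_nhds ▸ ha.one, ha.cont.congr h, ha.deriv.congr_of_eventuallyEq ?_⟩
  filter_upwards [h] with z hz
  rw [hz]

variable (F G) in
/-- The derivative of multiplication at `(1, 1)` is addition. -/
theorem hasD_mul_symm : HasD (fun p : F × F => (ch F G).symm p.1 * (ch F G).symm p.2)
    (ContinuousLinearMap.fst ℝ F F + ContinuousLinearMap.snd ℝ F F) (ch F G 1, ch F G 1) := by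
  set x₀ := ch F G 1 with hx₀
  have hsm : ContMDiffAt 𝓘(ℝ, F × F) 𝓘(ℝ, F) 1
      (fun p : F × F => (ch F G).symm p.1 * (ch F G).symm p.2) (x₀, x₀) := by
    refine ContMDiffAt.mul ?_ ?_
    · exact (symm_contMDiffAt F G).comp (x₀, x₀) (f := fun p : F × F => p.1)
        contDiff_fst.contMDiff.contMDiffAt
    · exact (symm_contMDiffAt F G).comp (x₀, x₀) (f := fun p : F × F => p.2)
        contDiff_snd.contMDiff.contMDiffAt
  have h1 : (fun p : F × F => (ch F G).symm p.1 * (ch F G).symm p.2) (x₀, x₀) = 1 := by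
    simp only [hx₀, symm_ch_one, mul_one]
  have hD := hasD_of_contMDiffAt
    (α := fun p : F × F => (ch F G).symm p.1 * (ch F G).symm p.2) (z₀ := (x₀, x₀)) h1 hsm
  set M := fderiv ℝ (fun z : F × F => ch F G ((ch F G).symm z.1 * (ch F G).symm z.2)) (x₀, x₀)
    with hM
  have hl : M.comp (ContinuousLinearMap.inl ℝ F F) = ContinuousLinearMap.id ℝ F := by
    have hg : HasStrictFDerivAt (fun x : F => (x, x₀)) (ContinuousLinearMap.inl ℝ F F) x₀ := by
      have := (hasStrictFDerivAt_id (𝕜 := ℝ) x₀).prodMk (hasStrictFDerivAt_const x₀ x₀)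
      exact this
    have h2 := HasD.comp (g := fun x : F => (x, x₀)) (w₀ := x₀) hD hg
    refine h2.unique ((hasD_symm F G).congr (Eventually.of_forall fun x => ?_))
    simp only [hx₀, symm_ch_one, mul_one]
  have hr : M.comp (ContinuousLinearMap.inr ℝ F F) = ContinuousLinearMap.id ℝ F := by
    have hg : HasStrictFDerivAt (fun x : F => (x₀, x)) (ContinuousLinearMap.inr ℝ F F) x₀ := by
      have := (hasStrictFDerivAt_const (𝕜 := ℝ) x₀ x₀).prodMk (hasStrictFDerivAt_id (𝕜 := ℝ) x₀)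
      exact this
    have h2 := HasD.comp (g := fun x : F => (x₀, x)) (w₀ := x₀) hD hg
    refine h2.unique ((hasD_symm F G).congr (Eventually.of_forall fun x => ?_))
    simp only [hx₀, symm_ch_one, one_mul]
  have hMeq : M = ContinuousLinearMap.fst ℝ F F + ContinuousLinearMap.snd ℝ F F := by
    apply ContinuousLinearMap.ext
    rintro ⟨u, v⟩
    have e1 : M (u, 0) = u := by
      have := DFunLike.congr_fun hl u
      simpa using this
    have e2 : M (0, v) = v := by
      have := DFunLike.congr_fun hr v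
      simpa using this
    have e3 : ((u, v) : F × F) = (u, 0) + (0, v) := by simp
    rw [e3, map_add, e1, e2]
    simp
  rw [← hMeq]
  exact hD

/-- Product rule. -/
theorem HasD.mul {Z : Type*} [NormedAddCommGroup Z] [NormedSpace ℝ Z] {α β : Z → G}
    {a' b' : Z →L[ℝ] F} {z₀ : Z} (ha : HasD α a' z₀) (hb : HasD β b' z₀) :
    HasD (fun z => α z * β z) (a' + b') z₀ := by
  have hg : HasStrictFDerivAt (fun z => (ch F G (α z), ch F G (β z))) (a'.prod b') z₀ :=
    ha.deriv.prodMk hb.deriv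
  have h1 : HasD (fun p : F × F => (ch F G).symm p.1 * (ch F G).symm p.2)
      (ContinuousLinearMap.fst ℝ F F + ContinuousLinearMap.snd ℝ F F)
      (ch F G (α z₀), ch F G (β z₀)) := by
    rw [ha.one, hb.one]
    exact hasD_mul_symm F G
  have h2 := HasD.comp (g := fun z => (ch F G (α z), ch F G (β z))) (w₀ := z₀) h1 hg
  have h3 : (ContinuousLinearMap.fst ℝ F F + ContinuousLinearMap.snd ℝ F F).comp (a'.prod b') =
      a' + b' := by
    ext z
    simp
  rw [h3] at h2
  refine h2.congr ?_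
  filter_upwards [ha.eventually_eq, hb.eventually_eq] with z h4 h5
  rw [h4, h5]

/-- Inverse rule. -/
theorem HasD.inv {Z : Type*} [NormedAddCommGroup Z] [NormedSpace ℝ Z] {α : Z → G}
    {a' : Z →L[ℝ] F} {z₀ : Z} (ha : HasD α a' z₀) : HasD (fun z => (α z)⁻¹) (-a') z₀ := by
  -- first for `symm`
  have hs : ContMDiffAt 𝓘(ℝ, F) 𝓘(ℝ, F) 1 (fun x => ((ch F G).symm x)⁻¹) (ch F G 1) :=
    (symm_contMDiffAt F G).inv
  have h1 := hasD_of_contMDiffAt (by simp [symm_ch_one]) hs
  set N := fderiv ℝ (fun z => ch F G ((ch F G).symm z)⁻¹) (ch F G 1)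
  have h2 := (hasD_symm F G).mul h1
  have h3 : ContinuousLinearMap.id ℝ F + N = 0 := by
    refine h2.unique ((hasD_const (ch F G 1)).congr (Eventually.of_forall fun x => ?_))
    simp
  have hN : N = -ContinuousLinearMap.id ℝ F := by
    rw [eq_neg_iff_add_eq_zero, add_comm]
    exact h3
  rw [hN] at h1
  have h1' : HasD (fun x => ((ch F G).symm x)⁻¹) (-ContinuousLinearMap.id ℝ F) (ch F G (α z₀)) := by
    rw [ha.one]
    exact h1
  have h4 := HasD.comp (g := fun z => ch F G (α z)) (w₀ := z₀) h1' ha.deriv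
  have h5 : (-ContinuousLinearMap.id ℝ F).comp a' = -a' := by
    ext z
    simp
  rw [h5] at h4
  refine h4.congr ?_
  filter_upwards [ha.eventually_eq] with z h6
  rw [h6]

variable (F) in
/-- The derivative at `1` of conjugation by `h`, in the chart. -/
noncomputable def Adj (h : G) : F →L[ℝ] F :=
  fderiv ℝ (fun x => ch F G (h * (ch F G).symm x * h⁻¹)) (ch F G 1)

theorem hasD_conj_symm (h : G) :
    HasD (fun x => h * (ch F G).symm x * h⁻¹) (Adj F h) (ch F G 1) := by
  refine hasD_of_contMDiffAt (by simp [symm_ch_one]) ?_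
  exact (contMDiffAt_const.mul (symm_contMDiffAt F G)).mul contMDiffAt_const

/-- Conjugation rule. -/
theorem HasD.conj {Z : Type*} [NormedAddCommGroup Z] [NormedSpace ℝ Z] {α : Z → G}
    {a' : Z →L[ℝ] F} {z₀ : Z} (ha : HasD α a' z₀) (h : G) :
    HasD (fun z => h * α z * h⁻¹) ((Adj F h).comp a') z₀ := by
  have h1 : HasD (fun x => h * (ch F G).symm x * h⁻¹) (Adj F h) (ch F G (α z₀)) := by
    rw [ha.one]
    exact hasD_conj_symm h
  have h4 := HasD.comp (g := fun z => ch F G (α z)) (w₀ := z₀) h1 ha.deriv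
  refine h4.congr ?_
  filter_upwards [ha.eventually_eq] with z h6
  rw [h6]

theorem Adj_mul (g h : G) : Adj F (g * h) = (Adj F g).comp (Adj F h) := by
  have h1 := hasD_conj_symm (F := F) (g * h)
  have h2 := (hasD_conj_symm (F := F) h).conj g
  refine h1.unique (h2.congr (Eventually.of_forall fun x => ?_))
  simp only [mul_inv_rev, mul_assoc]

end Pool.Agent.MP_646617_gt
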