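import Pool.Agent.Lib.MP_646617_gt.Rigid

open Filter Topology Manifold ContDiff

namespace Pool.Agent.MP_646617_gt

/-- A compact Lie group has finitely many conjugacy classes of homomorphisms from a given finite
group. -/
theorem finite_hom_classes (F : Type*) [NormedAddCommGroup F] [NormedSpace ℝ F]
    [FiniteDimensional ℝ F] {G : Type*} [TopologicalSpace G] [ChartedSpace F G] [Group G]
    [LieGroup 𝓘(ℝ, F) 1 G] [CompactSpace G] [T2Space G] (Γ : Type*) [Group Γ] [Finite Γ] :
    ∃ t : Finset (Γ → G), ∀ ρ : Γ →* G, ∃ u ∈ t, ∃ g : G, ∀ γ, ρ γ = g * u γ * g⁻¹ := by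
  have : IsTopologicalGroup G := topologicalGroup_of_lieGroup 𝓘(ℝ, F) 1
  let H : Set (Γ → G) := {u | ∀ γ δ, u (γ * δ) = u γ * u δ}
  have hH : IsClosed H := by
    have h1 : H = ⋂ (γ : Γ) (δ : Γ), {u : Γ → G | u (γ * δ) = u γ * u δ} := by
      ext u
      simp [H]
    rw [h1]
    exact isClosed_iInter fun γ => isClosed_iInter fun δ =>
      isClosed_eq (by fun_prop) (by fun_prop)
  obtain ⟨t, -, ht⟩ := hH.isCompact.elim_nhds_subcover
    (fun u => {u' : Γ → G | (∀ γ δ, u' (γ * δ) = u' γ * u' δ) → ∃ g : G, ∀ γ, u' γ = g * u γ * g⁻¹})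
    (fun u hu => rigidity F (MonoidHom.mk' u hu))
  refine ⟨t, fun ρ => ?_⟩
  have hρ : (fun γ => ρ γ) ∈ H := fun γ δ => map_mul ρ γ δ
  obtain ⟨u, hu, hu'⟩ := Set.mem_iUnion₂.1 (ht hρ)
  exact ⟨u, hu, hu' fun γ δ => map_mul ρ γ δ⟩

/-- A compact Lie group has finitely many conjugacy classes of finite subgroups of order at
most `n`. -/
theorem finite_subgroup_classes (F : Type*) [NormedAddCommGroup F] [NormedSpace ℝ F]
    [FiniteDimensional ℝ F] (G : Type*) [TopologicalSpace G] [ChartedSpace F G] [Group G]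
    [LieGroup 𝓘(ℝ, F) 1 G] [CompactSpace G] [T2Space G] (n : ℕ) :
    ∃ S : Set (Subgroup G), S.Finite ∧ ∀ H : Subgroup G, Finite H → Nat.card H ≤ n →
      ∃ H' ∈ S, ∃ g : G, H = H'.map (MulAut.conj g).toMonoidHom := by
  classical
  choose t ht using fun (m : ℕ) (Γ : Subgroup (Equiv.Perm (Fin m))) =>
    finite_hom_classes F (G := G) Γ
  refine ⟨⋃ (m ∈ Finset.range (n + 1)), ⋃ (Γ : Subgroup (Equiv.Perm (Fin m))),
    (fun u : Γ → G => Subgroup.closure (Set.range u)) '' (t m Γ : Set (Γ → G)), ?_, ?_⟩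
  · refine Set.Finite.biUnion (Finset.finite_toSet _) fun m _ => ?_
    exact Set.finite_iUnion fun Γ => (Finset.finite_toSet _).image _
  · intro H hfin hcard
    let m := Nat.card H
    let e : H ≃ Fin m := Finite.equivFin H
    let ι : H →* Equiv.Perm (Fin m) := e.permCongrHom.toMonoidHom.comp (MulAction.toPermHom H H)
    have hι : Function.Injective ι :=
      e.permCongrHom.injective.comp MulAction.toPerm_injective
    let iso : H ≃* ι.range := MonoidHom.ofInjective hι
    obtain ⟨u, hu, g, hg⟩ := ht m ι.range (H.subtype.comp iso.symm.toMonoidHom)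
    refine ⟨Subgroup.closure (Set.range u), ?_, g, ?_⟩
    · refine Set.mem_iUnion₂.2 ⟨m, Finset.mem_range.2 (Nat.lt_succ_of_le hcard), ?_⟩
      exact Set.mem_iUnion.2 ⟨ι.range, u, hu, rfl⟩
    · rw [MonoidHom.map_closure]
      have h1 : (MulAut.conj g).toMonoidHom '' Set.range u = (H : Set G) := by
        ext x
        constructor
        · rintro ⟨_, ⟨γ, rfl⟩, rfl⟩
          have h2 : (MulAut.conj g).toMonoidHom (u γ) =
              (H.subtype.comp iso.symm.toMonoidHom) γ := (hg γ).symm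
          rw [h2]
          exact (iso.symm γ).2
        · intro hx
          refine ⟨u (iso ⟨x, hx⟩), ⟨_, rfl⟩, ?_⟩
          have h2 : (MulAut.conj g).toMonoidHom (u (iso ⟨x, hx⟩)) =
              (H.subtype.comp iso.symm.toMonoidHom) (iso ⟨x, hx⟩) := (hg _).symm
          rw [h2]
          simp
      rw [h1, Subgroup.closure_eq]

/-- Finitely many sequences are distinguished by finitely many terms. -/
theorem exists_separating_index {α : Type*} (S : Set (ℕ → α)) (hS : S.Finite) :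
    ∃ N : ℕ, ∀ s ∈ S, ∀ t ∈ S, (∀ j < N, s j = t j) → s = t := by
  classical
  let d : (ℕ → α) × (ℕ → α) → ℕ := fun p =>
    if h : ∃ j, p.1 j ≠ p.2 j then Nat.find h + 1 else 0
  have hfin : (S ×ˢ S).Finite := hS.prod hS
  obtain ⟨N, hN⟩ := (hfin.image d).bddAbove
  refine ⟨N, fun s hs t ht h => ?_⟩
  by_contra hne
  have hex : ∃ j, s j ≠ t j := Function.ne_iff.1 hne
  have h1 : d (s, t) ≤ N := hN ⟨(s, t), ⟨hs, ht⟩, rfl⟩
  have h2 : d (s, t) = Nat.find hex + 1 := dif_pos hex
  exact Nat.find_spec hex (h _ (by omega))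

end Pool.Agent.MP_646617_gt
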