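import Mathlib

open scoped Manifold ContDiff
open MeasureTheory

namespace Pool.Agent.MP_646617_gt

/-- Smooth Riemannian metrics on the manifold `X` modelled on `E`. -/
abbrev RMetric (E : Type*) [NormedAddCommGroup E] [NormedSpace ℝ E] (X : Type*)
    [TopologicalSpace X] [ChartedSpace E X] [IsManifold 𝓘(ℝ, E) ∞ X] :=
  Bundle.ContMDiffRiemannianMetric 𝓘(ℝ, E) ∞ E (fun x : X => TangentSpace 𝓘(ℝ, E) x)

variable {E : Type*} [NormedAddCommGroup E] [NormedSpace ℝ E] {X : Type*} [TopologicalSpace X]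
  [ChartedSpace E X] [IsManifold 𝓘(ℝ, E) ∞ X] (G : Type*) [Group G] [MulAction G X]

/-- The group `G` acts on `X` by isometries of the Riemannian metric `met`: the differentials of
the translations `x ↦ g • x` preserve the inner products of tangent vectors. -/
def ActsByIsometries (met : RMetric E X) : Prop :=
  ∀ (g : G) (x : X) (v w : TangentSpace 𝓘(ℝ, E) x),
    met.inner (g • x) (mfderiv 𝓘(ℝ, E) 𝓘(ℝ, E) (fun y : X => g • y) x v)
      (mfderiv 𝓘(ℝ, E) 𝓘(ℝ, E) (fun y : X => g • y) x w) = met.inner x v w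

variable {G}

/-- `Δ f = c f` for the Laplace-Beltrami operator `Δ = - div grad` of the metric `met` with
respect to the volume measure `μ`, in weak form: if `V` is the gradient of `f`, i.e.
`⟨V, w⟩ = df(w)` for all tangent vectors `w`, then `∫ dφ(V) dμ = c ∫ f φ dμ` for every smooth
function `φ` on `X`. -/
def IsEigenfunction [MeasurableSpace X] (met : RMetric E X) (μ : Measure X) (c : ℝ)
    (f : C^∞⟮𝓘(ℝ, E), X; 𝓘(ℝ, ℝ), ℝ⟯) : Prop :=
  ∃ V : ∀ x : X, TangentSpace 𝓘(ℝ, E) x,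
    (∀ (x : X) (w : TangentSpace 𝓘(ℝ, E) x),
      met.inner x (V x) w = mfderiv 𝓘(ℝ, E) 𝓘(ℝ, ℝ) f x w) ∧
    ∀ φ : C^∞⟮𝓘(ℝ, E), X; 𝓘(ℝ, ℝ), ℝ⟯,
      ∫ x, (mfderiv 𝓘(ℝ, E) 𝓘(ℝ, ℝ) φ x (V x) : ℝ) ∂μ = c * ∫ x, f x * φ x ∂μ

/-- The span of the `Γ`-invariant eigenfunctions with eigenvalue at most `t`. -/
noncomputable def spanUpTo [MeasurableSpace X] (met : RMetric E X) (μ : Measure X) (Γ : Subgroup G) (t : ℝ) :
    Submodule ℝ C^∞⟮𝓘(ℝ, E), X; 𝓘(ℝ, ℝ), ℝ⟯ :=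
  Submodule.span ℝ {f | (∀ γ ∈ Γ, ∀ x : X, f (γ • x) = f x) ∧
    ∃ c : ℝ, c ≤ t ∧ IsEigenfunction met μ c f}

/-- The eigenvalue `λ_j(Γ\X)`, `j = 0, 1, 2, …`, the eigenvalues being listed in increasing order
with multiplicities: the least `t` for which the `Γ`-invariant eigenfunctions with eigenvalue at
most `t` span a space of dimension at least `j + 1`. -/
noncomputable def eigenvalue [MeasurableSpace X] (met : RMetric E X) (μ : Measure X)
    (Γ : Subgroup G) (j : ℕ) : ℝ :=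
  sInf {t : ℝ | ((j + 1 : ℕ) : Cardinal) ≤ Module.rank ℝ (spanUpTo met μ Γ t)}

/-- `Γ₁\X` and `Γ₂\X` are isospectral: their spectra, listed with multiplicities, coincide. -/
def Isospectral [MeasurableSpace X] (met : RMetric E X) (μ : Measure X)
    (Γ₁ Γ₂ : Subgroup G) : Prop :=
  ∀ j : ℕ, eigenvalue met μ Γ₁ j = eigenvalue met μ Γ₂ j

variable (G)

/-- Property (F); recall that `vol(Γ\X) / vol(X) = 1 / |Γ|`. -/
def PropertyF [MeasurableSpace X] (met : RMetric E X) (μ : Measure X) : Prop :=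
  ∀ ε : ℝ, 0 < ε → ∃ N : ℕ, ∀ Γ₁ Γ₂ : Subgroup G, Finite Γ₁ → Finite Γ₂ →
    ε < 1 / (Nat.card Γ₁ : ℝ) → ε < 1 / (Nat.card Γ₂ : ℝ) →
      (Isospectral met μ Γ₁ Γ₂ ↔ ∀ j < N, eigenvalue met μ Γ₁ j = eigenvalue met μ Γ₂ j)

end Pool.Agent.MP_646617_gt
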