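import Mathlib

open Filter Topology Asymptotics

namespace Pool.Agent.MP_646617_gt

/-- If `F ∘ f` is locally constant near `x₀` and the sequence of derivatives
`E₁ → E₂ → E₃` is exact in the middle, then near `f x₀` the fibre of `F` is covered by `f`. -/
theorem fibre_covered {E₁ E₂ E₃ : Type*} [NormedAddCommGroup E₁] [NormedSpace ℝ E₁]
    [FiniteDimensional ℝ E₁] [NormedAddCommGroup E₂] [NormedSpace ℝ E₂] [FiniteDimensional ℝ E₂]
    [NormedAddCommGroup E₃] [NormedSpace ℝ E₃]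
    {f : E₁ → E₂} {F : E₂ → E₃} {f' : E₁ →L[ℝ] E₂} {F' : E₂ →L[ℝ] E₃} {x₀ : E₁} {c₀ : E₃}
    (hf : HasStrictFDerivAt f f' x₀) (hF : HasStrictFDerivAt F F' (f x₀))
    (hc : ∀ᶠ x in 𝓝 x₀, F (f x) = c₀)
    (hex : ∀ a, F' a = 0 → ∃ u, f' u = a) {U : Set E₁} (hU : U ∈ 𝓝 x₀) :
    ∀ᶠ y in 𝓝 (f x₀), F y = c₀ → ∃ x ∈ U, f x = y := by
  have : CompleteSpace E₁ := FiniteDimensional.complete ℝ E₁
  have : CompleteSpace E₂ := FiniteDimensional.complete ℝ E₂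
  obtain ⟨C, hC⟩ := Submodule.exists_isCompl (LinearMap.ker (F' : E₂ →ₗ[ℝ] E₃))
  -- `F'` is bounded below on `C`
  have hinj : LinearMap.ker ((F' : E₂ →ₗ[ℝ] E₃).comp C.subtype) = ⊥ := by
    rw [LinearMap.ker_eq_bot']
    intro c hc0
    have h1 : (c : E₂) ∈ LinearMap.ker (F' : E₂ →ₗ[ℝ] E₃) := hc0
    have h2 := Submodule.disjoint_def.1 hC.disjoint (c : E₂) h1 c.2
    exact Subtype.ext h2
  obtain ⟨K, K0, hK⟩ := LinearMap.exists_antilipschitzWith _ hinj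
  have hbound : ∀ c : C, ‖c‖ ≤ K * ‖F' (c : E₂)‖ := by
    intro c
    have := hK.le_mul_dist c 0
    simpa using this
  let Θ : E₁ × C → E₂ := fun p => f p.1 + (p.2 : E₂)
  let Θ' : (E₁ × C) →L[ℝ] E₂ :=
    f'.comp (ContinuousLinearMap.fst ℝ E₁ C) + C.subtypeL.comp (ContinuousLinearMap.snd ℝ E₁ C)
  have hΘ : HasStrictFDerivAt Θ Θ' (x₀, (0 : C)) := by
    refine HasStrictFDerivAt.add ?_ ?_
    · exact HasStrictFDerivAt.comp (x₀, (0 : C)) (g := f) (f := fun p : E₁ × C => p.1) hf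
        hasStrictFDerivAt_fst
    · exact (C.subtypeL.comp (ContinuousLinearMap.snd ℝ E₁ C)).hasStrictFDerivAt
  have hsurj : Θ'.range = ⊤ := by
    rw [eq_top_iff]
    intro y _
    have hy : y ∈ LinearMap.ker (F' : E₂ →ₗ[ℝ] E₃) ⊔ C := by
      rw [hC.sup_eq_top]
      trivial
    obtain ⟨a, ha, c, hcC, rfl⟩ := Submodule.mem_sup.1 hy
    obtain ⟨u, hu⟩ := hex a ha
    refine ⟨(u, ⟨c, hcC⟩), ?_⟩
    simp [Θ', hu]
  have hmap := hΘ.map_nhds_eq_of_surj hsurj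
  have hΘ0 : Θ (x₀, (0 : C)) = f x₀ := by simp [Θ]
  rw [hΘ0] at hmap
  -- the good set
  have hKpos : (0 : ℝ) < K := by exact_mod_cast K0
  have hlit : ∀ᶠ p : E₁ × C in 𝓝 (x₀, (0 : C)),
      ‖F (f p.1 + (p.2 : E₂)) - F (f p.1) - F' (p.2 : E₂)‖ ≤ (1 / (2 * K)) * ‖(p.2 : E₂)‖ := by
    have hpos : (0 : ℝ) < 1 / (2 * K) := by positivity
    have h1 := hF.isLittleO.def hpos
    have htend : Tendsto (fun p : E₁ × C => (f p.1 + (p.2 : E₂), f p.1)) (𝓝 (x₀, (0 : C)))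
        (𝓝 (f x₀, f x₀)) := by
      have hcf : ContinuousAt f x₀ := hf.continuousAt
      have hfst : Tendsto (fun p : E₁ × C => f p.1) (𝓝 (x₀, (0 : C))) (𝓝 (f x₀)) :=
        hcf.tendsto.comp (continuous_fst.tendsto' _ _ rfl)
      have hsnd : Tendsto (fun p : E₁ × C => (p.2 : E₂)) (𝓝 (x₀, (0 : C))) (𝓝 0) :=
        (continuous_subtype_val.comp continuous_snd).tendsto' _ _ (by simp)
      have hadd := hfst.add hsnd
      rw [add_zero] at hadd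
      exact hadd.prodMk_nhds hfst
    filter_upwards [htend.eventually h1] with p hp
    simpa using hp
  have hgood : ∀ᶠ p : E₁ × C in 𝓝 (x₀, (0 : C)), (p.1 ∈ U ∧ F (f p.1) = c₀) ∧
      ‖F (f p.1 + (p.2 : E₂)) - F (f p.1) - F' (p.2 : E₂)‖ ≤ (1 / (2 * K)) * ‖(p.2 : E₂)‖ := by
    have hfst : Tendsto (fun p : E₁ × C => p.1) (𝓝 (x₀, (0 : C))) (𝓝 x₀) :=
      continuous_fst.tendsto' _ _ rfl
    exact (hfst.eventually (Filter.Eventually.and hU hc)).and hlit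
  have himg : Θ '' {p : E₁ × C | (p.1 ∈ U ∧ F (f p.1) = c₀) ∧
      ‖F (f p.1 + (p.2 : E₂)) - F (f p.1) - F' (p.2 : E₂)‖ ≤ (1 / (2 * K)) * ‖(p.2 : E₂)‖}
      ∈ 𝓝 (f x₀) := by
    rw [← hmap]
    exact image_mem_map hgood
  filter_upwards [himg] with y hy hFy
  obtain ⟨⟨x, c⟩, ⟨⟨hxU, hxc⟩, hest⟩, rfl⟩ := hy
  refine ⟨x, hxU, ?_⟩
  have hFy' : F (f x + (c : E₂)) = c₀ := hFy
  dsimp only at hxc hest
  rw [hFy', hxc, sub_self, zero_sub, norm_neg] at hest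
  have hb := hbound c
  have hc2 : ‖(c : E₂)‖ ≤ ‖(c : E₂)‖ / 2 := by
    calc ‖(c : E₂)‖ = ‖c‖ := rfl
      _ ≤ K * ‖F' (c : E₂)‖ := hb
      _ ≤ K * ((1 / (2 * K)) * ‖(c : E₂)‖) := by gcongr
      _ = ‖(c : E₂)‖ / 2 := by field_simp
  have hc0 : (c : E₂) = 0 := by
    rw [← norm_eq_zero]
    have := norm_nonneg (c : E₂)
    linarith
  simp [Θ, hc0]

end Pool.Agent.MP_646617_gt
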