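import Pool.Agent.Lib.MP_646617_gt.Defs

open scoped Manifold ContDiff
open MeasureTheory

namespace Pool.Agent.MP_646617_gt

variable {E : Type*} [NormedAddCommGroup E] [NormedSpace ℝ E] {X : Type*} [TopologicalSpace X]
  [ChartedSpace E X] [IsManifold 𝓘(ℝ, E) ∞ X]
  (F : Type*) [NormedAddCommGroup F] [NormedSpace ℝ F]
  {G : Type*} [TopologicalSpace G] [ChartedSpace F G] [Group G] [MulAction G X]
  [ContMDiffSMul 𝓘(ℝ, F) 𝓘(ℝ, E) ∞ G X]

set_option linter.unusedSectionVars false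

include F

/-- The translation `x ↦ h • x` as a smooth map. -/
def trans (h : G) : C^∞⟮𝓘(ℝ, E), X; 𝓘(ℝ, E), X⟯ :=
  ⟨fun x => h • x, ContMDiffSMul.contMDiff_const_smul (I := 𝓘(ℝ, F)) h⟩

/-- Pullback of functions by the translation by `h`. -/
noncomputable def pull (h : G) : C^∞⟮𝓘(ℝ, E), X; 𝓘(ℝ, ℝ), ℝ⟯ →ₗ[ℝ] C^∞⟮𝓘(ℝ, E), X; 𝓘(ℝ, ℝ), ℝ⟯ where
  toFun f := f.comp (trans F h)
  map_add' _ _ := rfl
  map_smul' _ _ := rfl

theorem pull_apply (h : G) (f : C^∞⟮𝓘(ℝ, E), X; 𝓘(ℝ, ℝ), ℝ⟯) (x : X) :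
    pull F h f x = f (h • x) := rfl

theorem pull_injective (h : G) : Function.Injective (pull (E := E) (X := X) F h) := by
  intro f g hfg
  ext x
  have h1 : pull F h f (h⁻¹ • x) = pull F h g (h⁻¹ • x) := by rw [hfg]
  rw [pull_apply, pull_apply, smul_inv_smul] at h1
  exact h1

theorem mdiff_trans (h : G) (x : X) :
    MDifferentiableAt 𝓘(ℝ, E) 𝓘(ℝ, E) (fun y : X => h • y) x :=
  (ContMDiffSMul.contMDiff_const_smul (I := 𝓘(ℝ, F)) (I' := 𝓘(ℝ, E)) (n := ∞) (M := X)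
    h).mdifferentiableAt (by simp)

theorem mdiff_fun (f : C^∞⟮𝓘(ℝ, E), X; 𝓘(ℝ, ℝ), ℝ⟯) (x : X) :
    MDifferentiableAt 𝓘(ℝ, E) 𝓘(ℝ, ℝ) f x :=
  f.contMDiff.mdifferentiableAt (by simp)

theorem mfderiv_pull (h : G) (f : C^∞⟮𝓘(ℝ, E), X; 𝓘(ℝ, ℝ), ℝ⟯) (x : X)
    (w : TangentSpace 𝓘(ℝ, E) x) :
    mfderiv 𝓘(ℝ, E) 𝓘(ℝ, ℝ) (pull F h f) x w =
      mfderiv 𝓘(ℝ, E) 𝓘(ℝ, ℝ) f (h • x) (mfderiv 𝓘(ℝ, E) 𝓘(ℝ, E) (fun y : X => h • y) x w) := by
  have h1 : mfderiv 𝓘(ℝ, E) 𝓘(ℝ, ℝ) (f ∘ fun y : X => h • y) x =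
      (mfderiv 𝓘(ℝ, E) 𝓘(ℝ, ℝ) f (h • x)).comp
        (mfderiv 𝓘(ℝ, E) 𝓘(ℝ, E) (fun y : X => h • y) x) :=
    mfderiv_comp x (mdiff_fun F f (h • x)) (mdiff_trans F h x)
  exact DFunLike.congr_fun h1 w

/-- The differential of a translation is surjective. -/
theorem mfderiv_trans_surj (h : G) (x : X) (v : TangentSpace 𝓘(ℝ, E) (h • x)) :
    ∃ u : TangentSpace 𝓘(ℝ, E) x, mfderiv 𝓘(ℝ, E) 𝓘(ℝ, E) (fun y : X => h • y) x u = v := by
  let Φ := Diffeomorph.smul 𝓘(ℝ, F) 𝓘(ℝ, E) ∞ (M := X) h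
  have hn : (∞ : WithTop ℕ∞) ≠ 0 := by simp
  refine ⟨(Φ.mfderivToContinuousLinearEquiv hn x).symm v, ?_⟩
  exact (Φ.mfderivToContinuousLinearEquiv hn x).apply_symm_apply v

theorem isEigenfunction_pull [MeasurableSpace X] [BorelSpace X] {met : RMetric E X}
    (hiso : ActsByIsometries G met) {μ : Measure X} [SMulInvariantMeasure G X μ] (h : G) {c : ℝ}
    {f : C^∞⟮𝓘(ℝ, E), X; 𝓘(ℝ, ℝ), ℝ⟯} (hf : IsEigenfunction met μ c f) :
    IsEigenfunction met μ c (pull F h f) := by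
  have : ContinuousSMul G X := ContMDiffSMul.continuousSMul (I := 𝓘(ℝ, F)) (I' := 𝓘(ℝ, E)) ∞
  obtain ⟨V, hV1, hV2⟩ := hf
  choose U hU using fun x : X => mfderiv_trans_surj F h x (V (h • x))
  refine ⟨U, fun x w => ?_, fun φ => ?_⟩
  · rw [mfderiv_pull, ← hV1, ← hU x]
    exact (hiso h x (U x) w).symm
  · let φ' := pull F h⁻¹ φ
    have hφ : pull F h φ' = φ := by
      ext x
      change φ (h⁻¹ • h • x) = φ x
      rw [inv_smul_smul]
    let Ψ : X → ℝ := fun y => (mfderiv 𝓘(ℝ, E) 𝓘(ℝ, ℝ) φ' y (V y) : ℝ)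
    let Θ : X → ℝ := fun y => f y * φ' y
    have h1 : ∀ x, (mfderiv 𝓘(ℝ, E) 𝓘(ℝ, ℝ) φ x (U x) : ℝ) = Ψ (h • x) := by
      intro x
      have h3 : (mfderiv 𝓘(ℝ, E) 𝓘(ℝ, ℝ) φ x (U x) : ℝ) =
          (mfderiv 𝓘(ℝ, E) 𝓘(ℝ, ℝ) (pull F h φ') x (U x) : ℝ) := by rw [hφ]
      refine h3.trans ((mfderiv_pull F h φ' x (U x)).trans ?_)
      rw [hU x]
    have h2 : ∀ x, (pull F h f) x * φ x = Θ (h • x) := by
      intro x
      have h3 : (pull F h f) x * φ x = (pull F h f) x * (pull F h φ') x := by rw [hφ]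
      exact h3
    calc ∫ x, (mfderiv 𝓘(ℝ, E) 𝓘(ℝ, ℝ) φ x (U x) : ℝ) ∂μ = ∫ x, Ψ (h • x) ∂μ :=
          integral_congr_ae (Filter.Eventually.of_forall h1)
      _ = ∫ x, Ψ x ∂μ := integral_smul_eq_self Ψ
      _ = c * ∫ x, Θ x ∂μ := hV2 φ'
      _ = c * ∫ x, Θ (h • x) ∂μ := by rw [integral_smul_eq_self Θ]
      _ = c * ∫ x, (pull F h f) x * φ x ∂μ := by
          rw [integral_congr_ae (Filter.Eventually.of_forall h2)]

theorem rank_le_of_conj [MeasurableSpace X] [BorelSpace X] {met : RMetric E X}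
    (hiso : ActsByIsometries G met) {μ : Measure X} [SMulInvariantMeasure G X μ] (h : G)
    (Γ : Subgroup G) (t : ℝ) :
    Module.rank ℝ (spanUpTo met μ Γ t) ≤
      Module.rank ℝ (spanUpTo met μ (Γ.map (MulAut.conj h).toMonoidHom) t) := by
  have h1 : (spanUpTo met μ Γ t).map (pull F h⁻¹) ≤
      spanUpTo met μ (Γ.map (MulAut.conj h).toMonoidHom) t := by
    rw [spanUpTo, Submodule.map_span_le]
    rintro f ⟨hf1, c, hc, hf2⟩
    apply Submodule.subset_span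
    refine ⟨?_, c, hc, isEigenfunction_pull F hiso h⁻¹ hf2⟩
    rintro _ ⟨γ, hγ, rfl⟩ x
    change f (h⁻¹ • (h * γ * h⁻¹) • x) = f (h⁻¹ • x)
    rw [← hf1 γ hγ (h⁻¹ • x)]
    congr 1
    rw [smul_smul, smul_smul]
    congr 1
    group
  calc Module.rank ℝ (spanUpTo met μ Γ t)
      = Module.rank ℝ ((spanUpTo met μ Γ t).map (pull F h⁻¹)) :=
        (Submodule.equivMapOfInjective _ (pull_injective F h⁻¹) _).rank_eq
    _ ≤ _ := Submodule.rank_mono h1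

theorem eigenvalue_conj [MeasurableSpace X] [BorelSpace X] {met : RMetric E X}
    (hiso : ActsByIsometries G met) {μ : Measure X} [SMulInvariantMeasure G X μ] (h : G)
    (Γ : Subgroup G) :
    eigenvalue met μ (Γ.map (MulAut.conj h).toMonoidHom) = eigenvalue met μ Γ := by
  have h1 : ∀ t, Module.rank ℝ (spanUpTo met μ (Γ.map (MulAut.conj h).toMonoidHom) t) =
      Module.rank ℝ (spanUpTo met μ Γ t) := by
    intro t
    refine le_antisymm ?_ (rank_le_of_conj F hiso h Γ t)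
    have h2 := rank_le_of_conj F hiso (μ := μ) h⁻¹ (Γ.map (MulAut.conj h).toMonoidHom) t
    have h3 : (Γ.map (MulAut.conj h).toMonoidHom).map (MulAut.conj h⁻¹).toMonoidHom = Γ := by
      rw [Subgroup.map_map]
      have h4 : (MulAut.conj h⁻¹).toMonoidHom.comp (MulAut.conj h).toMonoidHom =
          MonoidHom.id G := by
        ext x
        simp [mul_assoc]
      rw [h4, Subgroup.map_id]
    rw [h3] at h2
    exact h2
  funext j
  simp only [eigenvalue, h1]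

end Pool.Agent.MP_646617_gt
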