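import Pool.Agent.Lib.MP_646617_gt.Exact
import Pool.Agent.Lib.MP_646617_gt.Chart

open Filter Topology Manifold ContDiff

namespace Pool.Agent.MP_646617_gt

/-- Vanishing of the first cohomology of a finite group with coefficients in a real vector
space, in the form needed below. -/
theorem cocycle_is_coboundary {Γ : Type*} [Group Γ] [Fintype Γ] {V : Type*} [AddCommGroup V]
    [Module ℝ V] (A : Γ → V →ₗ[ℝ] V) (a : Γ → V)
    (ha : ∀ γ δ, a γ + A γ (a δ) - a (γ * δ) = 0) : ∃ w : V, ∀ γ, w - A γ w = a γ := by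
  have hcard : (Fintype.card Γ : ℝ) ≠ 0 := by
    exact_mod_cast Fintype.card_ne_zero
  refine ⟨(Fintype.card Γ : ℝ)⁻¹ • ∑ δ, a δ, fun γ => ?_⟩
  have h1 : ∑ δ, (a γ + A γ (a δ) - a (γ * δ)) = 0 := Finset.sum_eq_zero fun δ _ => ha γ δ
  rw [Finset.sum_sub_distrib, Finset.sum_add_distrib] at h1
  have h2 : ∑ δ, a (γ * δ) = ∑ δ, a δ := Equiv.sum_comp (Equiv.mulLeft γ) a
  rw [h2, Finset.sum_const, Finset.card_univ, ← map_sum] at h1
  rw [map_smul, ← smul_sub]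
  have h3 : ∑ δ, a δ - A γ (∑ δ, a δ) = Fintype.card Γ • a γ := by
    have h4 : Fintype.card Γ • a γ + A γ (∑ δ, a δ) = ∑ δ, a δ := sub_eq_zero.1 h1
    rw [sub_eq_iff_eq_add]
    exact h4.symm
  rw [h3, ← Nat.cast_smul_eq_nsmul ℝ, smul_smul, inv_mul_cancel₀ hcard, one_smul]

/-- Homomorphisms from a finite group to a Lie group which are close to `ρ` are conjugate
to `ρ`. -/
theorem rigidity (F : Type*) [NormedAddCommGroup F] [NormedSpace ℝ F] [FiniteDimensional ℝ F]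
    {G : Type*} [TopologicalSpace G] [ChartedSpace F G] [Group G] [LieGroup 𝓘(ℝ, F) 1 G]
    {Γ : Type*} [Group Γ] [Finite Γ] (ρ : Γ →* G) :
    ∀ᶠ u : Γ → G in 𝓝 (fun γ => ρ γ), (∀ γ δ, u (γ * δ) = u γ * u δ) →
      ∃ g : G, ∀ γ, u γ = g * ρ γ * g⁻¹ := by
  classical
  have : Fintype Γ := Fintype.ofFinite Γ
  have : IsTopologicalGroup G := topologicalGroup_of_lieGroup 𝓘(ℝ, F) 1
  set φ := ch F G with hφ
  set x₀ : F := φ 1 with hx₀
  let w : F → Γ → G := fun x γ => φ.symm x * (ρ γ * (φ.symm x)⁻¹ * (ρ γ)⁻¹)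
  let f : F → Γ → F := fun x γ => φ (w x γ)
  have hw : ∀ γ, HasD (fun x => w x γ)
      (ContinuousLinearMap.id ℝ F + (Adj F (ρ γ)).comp (-ContinuousLinearMap.id ℝ F)) x₀ :=
    fun γ => (hasD_symm F G).mul ((hasD_symm F G).inv.conj (ρ γ))
  let f' : F →L[ℝ] (Γ → F) := ContinuousLinearMap.pi fun γ =>
    ContinuousLinearMap.id ℝ F + (Adj F (ρ γ)).comp (-ContinuousLinearMap.id ℝ F)
  have hf : HasStrictFDerivAt f f' x₀ := hasStrictFDerivAt_pi.2 fun γ => (hw γ).deriv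
  have hf0 : f x₀ = fun _ => x₀ := by
    funext γ
    change φ (w x₀ γ) = x₀
    rw [(hw γ).one]
  let z : (Γ → F) → Γ × Γ → G := fun a p =>
    φ.symm (a p.1) * (ρ p.1 * φ.symm (a p.2) * (ρ p.1)⁻¹) * (φ.symm (a (p.1 * p.2)))⁻¹
  let Fc : (Γ → F) → Γ × Γ → F := fun a p => φ (z a p)
  have hproj : ∀ γ, HasD (fun a : Γ → F => φ.symm (a γ))
      ((ContinuousLinearMap.id ℝ F).comp (ContinuousLinearMap.proj (R := ℝ) γ)) (f x₀) := by
    intro γ
    have h1 : HasD φ.symm (ContinuousLinearMap.id ℝ F) ((fun a : Γ → F => a γ) (f x₀)) := by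
      rw [hf0]
      exact hasD_symm F G
    exact HasD.comp (g := fun a : Γ → F => a γ) (w₀ := f x₀) h1
      (ContinuousLinearMap.proj (R := ℝ) (φ := fun _ : Γ => F) γ).hasStrictFDerivAt
  have hz : ∀ p : Γ × Γ, HasD (fun a => z a p)
      ((ContinuousLinearMap.id ℝ F).comp (ContinuousLinearMap.proj (R := ℝ) p.1) +
        (Adj F (ρ p.1)).comp ((ContinuousLinearMap.id ℝ F).comp
          (ContinuousLinearMap.proj (R := ℝ) p.2)) +
        -((ContinuousLinearMap.id ℝ F).comp (ContinuousLinearMap.proj (R := ℝ) (p.1 * p.2))))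
      (f x₀) :=
    fun p => ((hproj p.1).mul ((hproj p.2).conj (ρ p.1))).mul (hproj (p.1 * p.2)).inv
  let Fc' : (Γ → F) →L[ℝ] (Γ × Γ → F) := ContinuousLinearMap.pi fun p =>
    (ContinuousLinearMap.id ℝ F).comp (ContinuousLinearMap.proj (R := ℝ) p.1) +
      (Adj F (ρ p.1)).comp ((ContinuousLinearMap.id ℝ F).comp
        (ContinuousLinearMap.proj (R := ℝ) p.2)) +
      -((ContinuousLinearMap.id ℝ F).comp (ContinuousLinearMap.proj (R := ℝ) (p.1 * p.2)))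
  have hFc : HasStrictFDerivAt Fc Fc' (f x₀) := hasStrictFDerivAt_pi.2 fun p => (hz p).deriv
  -- the good neighbourhood of `x₀`
  have hU : ∀ᶠ x in 𝓝 x₀, ∀ γ, w x γ ∈ φ.source :=
    eventually_all.2 fun γ => (hw γ).eventually_mem
  have hcon : ∀ᶠ x in 𝓝 x₀, Fc (f x) = fun _ => x₀ := by
    filter_upwards [hU] with x hx
    funext p
    have e1 : ∀ γ, φ.symm (f x γ) = w x γ := fun γ => φ.left_inv (hx γ)
    change φ (φ.symm (f x p.1) * (ρ p.1 * φ.symm (f x p.2) * (ρ p.1)⁻¹) *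
      (φ.symm (f x (p.1 * p.2)))⁻¹) = x₀
    rw [e1, e1, e1, hx₀]
    congr 1
    simp only [w, map_mul]
    group
  have hex : ∀ a, Fc' a = 0 → ∃ v, f' v = a := by
    intro a ha
    have h1 : ∀ γ δ, a γ + (Adj F (ρ γ) : F →ₗ[ℝ] F) (a δ) - a (γ * δ) = 0 := by
      intro γ δ
      have h2 := congrFun ha (γ, δ)
      simp only [Fc', ContinuousLinearMap.coe_pi', ContinuousLinearMap.add_apply,
        ContinuousLinearMap.comp_apply, ContinuousLinearMap.neg_apply,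
        ContinuousLinearMap.proj_apply, ContinuousLinearMap.id_apply, Pi.zero_apply] at h2
      rw [sub_eq_add_neg]
      exact h2
    obtain ⟨v, hv⟩ := cocycle_is_coboundary (fun γ => (Adj F (ρ γ) : F →ₗ[ℝ] F)) a h1
    refine ⟨v, ?_⟩
    funext γ
    rw [← hv γ]
    simp [f', sub_eq_add_neg]
  have hcov := fibre_covered hf hFc hcon hex hU
  -- pull back to maps `Γ → G`
  let Ψ : (Γ → G) → Γ → F := fun u γ => φ (u γ * (ρ γ)⁻¹)
  have hΨ1 : ∀ γ, Tendsto (fun u : Γ → G => u γ * (ρ γ)⁻¹) (𝓝 (fun γ => ρ γ)) (𝓝 1) := by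
    intro γ
    have hc : Continuous (fun u : Γ → G => u γ * (ρ γ)⁻¹) := by fun_prop
    exact hc.tendsto' _ _ (by simp)
  have hΨ : Tendsto Ψ (𝓝 (fun γ => ρ γ)) (𝓝 (f x₀)) := by
    rw [hf0]
    refine tendsto_pi_nhds.2 fun γ => ?_
    exact (φ.continuousAt one_mem_source).tendsto.comp (hΨ1 γ)
  have hΨs : ∀ᶠ u : Γ → G in 𝓝 (fun γ => ρ γ), ∀ γ, u γ * (ρ γ)⁻¹ ∈ φ.source :=
    eventually_all.2 fun γ => (hΨ1 γ).eventually (φ.open_source.mem_nhds one_mem_source)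
  filter_upwards [hΨ.eventually hcov, hΨs] with u hu1 hu2 humul
  have hFu : Fc (Ψ u) = fun _ => x₀ := by
    funext p
    have e1 : ∀ γ, φ.symm (Ψ u γ) = u γ * (ρ γ)⁻¹ := fun γ => φ.left_inv (hu2 γ)
    change φ (φ.symm (Ψ u p.1) * (ρ p.1 * φ.symm (Ψ u p.2) * (ρ p.1)⁻¹) *
      (φ.symm (Ψ u (p.1 * p.2)))⁻¹) = x₀
    rw [e1, e1, e1, hx₀, humul, map_mul]
    congr 1
    group
  obtain ⟨x, hxU, hx⟩ := hu1 hFu
  refine ⟨φ.symm x, fun γ => ?_⟩
  have h3 : w x γ = u γ * (ρ γ)⁻¹ := φ.injOn (hxU γ) (hu2 γ) (congrFun hx γ)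
  have h4 : u γ = w x γ * ρ γ := by
    rw [h3]
    group
  rw [h4]
  simp only [w]
  group

end Pool.Agent.MP_646617_gt
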